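import Pool.Agent.R402.EqJ
set_option autoImplicit false
open Filter Topology

/-! There is an infinite configuration of point masses in the plane without equilibrium point. -/

namespace Pool.Agent.Results.MP_3f6bc3_an.NoEquilibrium

/-- Euclidean space `ℝ^n` -/
abbrev E (n : ℕ) : Type := EuclideanSpace ℝ (Fin n)

/-- An admissible configuration in `ℝ^n`: infinitely many distinct points `x k`, none of them the
origin, tending to infinity (so that they have no accumulation point), with positive masses `a k`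
such that `∑ a k / |x k|^(n-1)` converges. -/
structure IsConfiguration (n : ℕ) (x : ℕ → E n) (a : ℕ → ℝ) : Prop where
  injective : Function.Injective x
  tendsto : Tendsto (fun k => ‖x k‖) atTop atTop
  ne_zero : ∀ k, x k ≠ 0
  pos : ∀ k, 0 < a k
  summable : Summable (fun k => a k / ‖x k‖ ^ (n - 1))

/-- the `k`-th term of the force field at `p` -/
noncomputable def term (n : ℕ) (x : ℕ → E n) (a : ℕ → ℝ) (p : E n) (k : ℕ) : E n :=
  (a k / ‖p - x k‖ ^ n) • (x k - p)

/-- the force field `F(p) = ∑ a k (x k - p) / |p - x k|^n` -/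
noncomputable def force (n : ℕ) (x : ℕ → E n) (a : ℕ → ℝ) (p : E n) : E n :=
  ∑' k, term n x a p k

/-- the isometry between `ℂ` and the plane -/
noncomputable def L : ℂ ≃ₗᵢ[ℝ] E 2 := Complex.orthonormalBasisOneI.repr

/-- the real linear map `w ↦ L (-conj w)` -/
noncomputable def T : ℂ →L[ℝ] E 2 :=
  -((L.toContinuousLinearEquiv : ℂ →L[ℝ] E 2).comp (Complex.conjCLE : ℂ →L[ℝ] ℂ))

theorem T_apply (w : ℂ) : T w = -L ((starRingEnd ℂ) w) := rfl

theorem T_eq_zero {w : ℂ} (h : T w = 0) : w = 0 := by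
  rw [T_apply, neg_eq_zero, LinearIsometryEquiv.map_eq_zero_iff] at h
  simpa using h

theorem term_eq (X : ℕ → ℂ) (a : ℕ → ℝ) (p : E 2) (k : ℕ) (hk : L.symm p - X k ≠ 0) :
    term 2 (fun k => L (X k)) a p k = T ((a k : ℂ) / (L.symm p - X k)) := by
  have h1 : p = L (L.symm p) := by simp
  unfold term
  rw [T_apply]
  conv_lhs => rw [h1]
  rw [← map_sub, ← map_sub, LinearIsometryEquiv.norm_map, ← map_smul, ← map_neg]
  congr 1
  set w := L.symm p - X k with hw
  have h2 : X k - L.symm p = -w := by rw [hw]; ring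
  rw [h2, map_div₀, Complex.conj_ofReal, smul_neg, Complex.real_smul]
  congr 1
  have h3 : (starRingEnd ℂ) w ≠ 0 := by simpa using hk
  rw [eq_div_iff h3, mul_assoc, Complex.mul_conj']
  have h4 : ((‖w‖ : ℝ) : ℂ) ≠ 0 := by simpa using hk
  push_cast
  field_simp

theorem result :
    (∃ (x : ℕ → E 2) (a : ℕ → ℝ), IsConfiguration 2 x a ∧
      ∀ p : E 2, (∀ k, p ≠ x k) → Summable (term 2 x a p) ∧ force 2 x a p ≠ 0) ∧
    ¬ (∀ n : ℕ, 2 ≤ n → ∀ (x : ℕ → E n) (a : ℕ → ℝ), IsConfiguration n x a →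
      ∃ p : E n, (∀ k, p ≠ x k) ∧ force n x a p = 0) := by
  have main : ∃ (x : ℕ → E 2) (a : ℕ → ℝ), IsConfiguration 2 x a ∧
      ∀ p : E 2, (∀ k, p ≠ x k) → Summable (term 2 x a p) ∧ force 2 x a p ≠ 0 := by
    obtain ⟨X, A, h1, h2, h3, h4, h5, h6⟩ := Pool.Agent.R402.Eq.exists_planar
    refine ⟨fun k => L (X k), A, ⟨L.injective.comp h1, ?_, ?_, h4, ?_⟩, ?_⟩
    · simpa using h2
    · intro k hk
      exact h3 k (by simpa using hk)
    · simpa using h5
    · intro p hp
      have hz : ∀ n, L.symm p ≠ X n := by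
        intro n hn
        apply hp n
        beta_reduce
        rw [← hn]
        simp
      obtain ⟨hs, hne⟩ := h6 (L.symm p) hz
      have hterm : term 2 (fun k => L (X k)) A p
          = fun k => T ((A k : ℂ) / (L.symm p - X k)) := by
        ext1 k
        exact term_eq X A p k (sub_ne_zero.2 (hz k))
      have hsum : HasSum (fun k => T ((A k : ℂ) / (L.symm p - X k)))
          (T (∑' k, (A k : ℂ) / (L.symm p - X k))) := T.hasSum hs.hasSum
      unfold force
      rw [hterm]
      refine ⟨hsum.summable, ?_⟩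
      rw [hsum.tsum_eq]
      intro h0
      exact hne (T_eq_zero h0)
  refine ⟨main, ?_⟩
  intro hall
  obtain ⟨x, a, hc, hx⟩ := main
  obtain ⟨p, hp, hp0⟩ := hall 2 le_rfl x a hc
  exact (hx p hp).2 hp0

end Pool.Agent.Results.MP_3f6bc3_an.NoEquilibrium
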